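import Mathlib

namespace Pool.Agent.Helper73.EUIdeal

open Filter Topology

/-- An ideal on the natural numbers: proper, closed under finite unions and subsets, and
containing every finite set. -/
structure IsIdeal (I : Set (Set ℕ)) : Prop where
  union_mem : ∀ A ∈ I, ∀ B ∈ I, A ∪ B ∈ I
  subset_mem : ∀ A ∈ I, ∀ B, B ⊆ A → B ∈ I
  finite_mem : ∀ A : Set ℕ, A.Finite → A ∈ I
  proper : Set.univ ∉ I

/-- The density zero ideal. -/
def densityZero : Set (Set ℕ) :=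
  {A | Tendsto (fun n : ℕ => ((A ∩ Set.Iio n).ncard : ℝ) / n) atTop (𝓝 0)}

/-- The weight functions used for Erdos-Ulam ideals. -/
structure IsEUWeight (f : ℕ → ℝ) : Prop where
  nonneg : ∀ n, 0 ≤ f n
  sum_infinite : Tendsto (fun n => ∑ i ∈ Finset.range n, f i) atTop atTop
  small : Tendsto (fun n => f n / ∑ i ∈ Finset.range (n + 1), f i) atTop (𝓝 0)

/-- The Erdos-Ulam ideal of a weight function. -/
def EU (f : ℕ → ℝ) : Set (Set ℕ) :=
  {A | Tendsto (fun n => (∑ i ∈ Finset.range n, A.indicator f i) / ∑ i ∈ Finset.range n, f i)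
    atTop (𝓝 0)}

/-- The Rudin-Blass order. -/
def RBle (I J : Set (Set ℕ)) : Prop :=
  ∃ φ : ℕ → ℕ, (∀ k, (φ ⁻¹' {k}).Finite) ∧ ∀ A : Set ℕ, A ∈ I ↔ φ ⁻¹' A ∈ J

/-- The Katetov order. -/
def Kle (I J : Set (Set ℕ)) : Prop :=
  ∃ φ : ℕ → ℕ, ∀ A : Set ℕ, A ∈ I → φ ⁻¹' A ∈ J

end Pool.Agent.Helper73.EUIdeal
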