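import Pool.Agent.Helper73.EUIdeal.Defs

namespace Pool.Agent.Helper73.EUIdeal

open Filter Topology

/-! ### Dyadic blocks -/

lemma cnt_mono {A : Set ℕ} {m n : ℕ} (h : m ≤ n) :
    (A ∩ Set.Iio m).ncard ≤ (A ∩ Set.Iio n).ncard := by
  apply Set.ncard_le_ncard
  · intro x hx
    exact ⟨hx.1, lt_of_lt_of_le hx.2 h⟩
  · exact (Set.finite_Iio n).subset Set.inter_subset_right

lemma cnt_le (A : Set ℕ) (n : ℕ) : (A ∩ Set.Iio n).ncard ≤ n := by
  calc (A ∩ Set.Iio n).ncard ≤ (Set.Iio n).ncard :=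
        Set.ncard_le_ncard Set.inter_subset_right (Set.finite_Iio n)
    _ = n := by
        rw [Set.ncard_eq_toFinset_card' (Set.Iio n)]; simp

/-- number of elements of `A` in the `N`-th dyadic block -/
noncomputable def blk (A : Set ℕ) (N : ℕ) : ℕ := (A ∩ Set.Ico (2 ^ N) (2 ^ (N + 1))).ncard

lemma blk_le_cnt (A : Set ℕ) (N : ℕ) : blk A N ≤ (A ∩ Set.Iio (2 ^ (N + 1))).ncard := by
  apply Set.ncard_le_ncard
  · intro x hx
    exact ⟨hx.1, hx.2.2⟩
  · exact (Set.finite_Iio _).subset Set.inter_subset_right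

lemma cnt_succ_le (A : Set ℕ) (N : ℕ) :
    (A ∩ Set.Iio (2 ^ (N + 1))).ncard ≤ (A ∩ Set.Iio (2 ^ N)).ncard + blk A N := by
  have : A ∩ Set.Iio (2 ^ (N + 1)) ⊆ (A ∩ Set.Iio (2 ^ N)) ∪ (A ∩ Set.Ico (2 ^ N) (2 ^ (N + 1))) := by
    intro x hx
    rcases lt_or_ge x (2 ^ N) with h | h
    · exact Or.inl ⟨hx.1, h⟩
    · exact Or.inr ⟨hx.1, h, hx.2⟩
  refine (Set.ncard_le_ncard this ?_).trans (Set.ncard_union_le _ _)
  exact ((Set.finite_Iio _).subset Set.inter_subset_right).union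
    ((Set.finite_Ico _ _).subset Set.inter_subset_right)

lemma mem_densityZero_iff (A : Set ℕ) :
    A ∈ densityZero ↔ Tendsto (fun N : ℕ => (blk A N : ℝ) / 2 ^ N) atTop (𝓝 0) := by
  constructor
  · intro h
    have h1 : Tendsto (fun N : ℕ => 2 * (((A ∩ Set.Iio (2 ^ (N + 1))).ncard : ℝ) /
        ((2 ^ (N + 1) : ℕ) : ℝ))) atTop (𝓝 (2 * 0)) := by
      apply Tendsto.const_mul
      have h2 : Tendsto (fun N : ℕ => 2 ^ (N + 1)) atTop atTop :=
        (tendsto_pow_atTop_atTop_of_one_lt (by norm_num : 1 < 2)).comp (tendsto_add_atTop_nat 1)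
      exact Tendsto.comp (g := fun n : ℕ => ((A ∩ Set.Iio n).ncard : ℝ) / n) h h2
    rw [mul_zero] at h1
    refine squeeze_zero (fun N => by positivity) (fun N => ?_) h1
    have h3 : (blk A N : ℝ) ≤ (A ∩ Set.Iio (2 ^ (N + 1))).ncard := by
      exact_mod_cast blk_le_cnt A N
    have h4 : (2 : ℝ) * (((A ∩ Set.Iio (2 ^ (N + 1))).ncard : ℝ) / ((2 ^ (N + 1) : ℕ) : ℝ)) =
        ((A ∩ Set.Iio (2 ^ (N + 1))).ncard : ℝ) / 2 ^ N := by
      push_cast
      generalize (((A ∩ Set.Iio (2 ^ (N + 1))).ncard : ℕ) : ℝ) = c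
      rw [pow_succ]
      field_simp
    rw [h4]
    gcongr
  · intro h
    show Tendsto (fun n : ℕ => ((A ∩ Set.Iio n).ncard : ℝ) / n) atTop (𝓝 0)
    rw [Metric.tendsto_atTop] at h ⊢
    intro ε hε
    obtain ⟨N0, hN0⟩ := h (ε / 4) (by positivity)
    have key : ∀ M : ℕ, ((A ∩ Set.Iio (2 ^ (N0 + M))).ncard : ℝ) ≤ 2 ^ N0 + ε / 4 * 2 ^ (N0 + M) := by
      intro M
      induction M with
      | zero =>
        have := cnt_le A (2 ^ N0)
        have h' : ((A ∩ Set.Iio (2 ^ N0)).ncard : ℝ) ≤ 2 ^ N0 := by exact_mod_cast this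
        simp only [Nat.add_zero]
        have : 0 ≤ ε / 4 * 2 ^ N0 := by positivity
        linarith
      | succ M ih =>
        have h1 := cnt_succ_le A (N0 + M)
        have h1' : ((A ∩ Set.Iio (2 ^ (N0 + M + 1))).ncard : ℝ) ≤
            (A ∩ Set.Iio (2 ^ (N0 + M))).ncard + blk A (N0 + M) := by exact_mod_cast h1
        have h2 := hN0 (N0 + M) (by omega)
        rw [Real.dist_eq, sub_zero, abs_of_nonneg (by positivity), div_lt_iff₀ (by positivity)] at h2
        rw [← Nat.add_assoc]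
        have h3 : (2 : ℝ) ^ (N0 + M + 1) = 2 ^ (N0 + M) * 2 := pow_succ _ _
        rw [h3]
        linarith
    obtain ⟨K, hK⟩ := exists_nat_gt ((2 : ℝ) ^ N0 / (ε / 4))
    refine ⟨max (K + 1) (2 ^ N0), fun n hn => ?_⟩
    have hnK : K + 1 ≤ n := le_trans (le_max_left _ _) hn
    have hnN : 2 ^ N0 ≤ n := le_trans (le_max_right _ _) hn
    have hn0 : n ≠ 0 := by omega
    have hlog : N0 ≤ Nat.log 2 n := Nat.le_log_of_pow_le (by norm_num) hnN
    obtain ⟨M, hM⟩ := Nat.exists_eq_add_of_le hlog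
    have hlt : n < 2 ^ (N0 + (M + 1)) := by
      rw [← Nat.add_assoc, ← hM]; exact Nat.lt_pow_succ_log_self (by norm_num) n
    have hle : 2 ^ (N0 + M) ≤ n := by
      rw [← hM]; exact Nat.pow_log_le_self 2 hn0
    have h5 : ((A ∩ Set.Iio n).ncard : ℝ) ≤ 2 ^ N0 + ε / 4 * 2 ^ (N0 + (M + 1)) :=
      le_trans (by exact_mod_cast cnt_mono hlt.le) (key (M + 1))
    have hle' : (2 : ℝ) ^ (N0 + M) ≤ n := by exact_mod_cast hle
    have hKn : (K : ℝ) < n := by exact_mod_cast hnK
    have h6 : (2 : ℝ) ^ N0 < ε / 4 * n := by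
      rw [div_lt_iff₀ (by positivity)] at hK
      nlinarith
    have hnpos : (0 : ℝ) < n := by positivity
    rw [Real.dist_eq, sub_zero, abs_of_nonneg (by positivity), div_lt_iff₀ hnpos]
    have h7 : (2 : ℝ) ^ (N0 + (M + 1)) = 2 ^ (N0 + M) * 2 := by rw [← Nat.add_assoc, pow_succ]
    rw [h7] at h5
    nlinarith

/-! ### Enumeration of finite families -/

lemma exists_enum {α : Type*} [Inhabited α] (S : ℕ → Finset α) (hS : ∀ n, (S n).Nonempty) :
    ∃ e : ℕ → ℕ × α, (∀ N, (e N).1 ≤ N) ∧ Tendsto (fun N => (e N).1) atTop atTop ∧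
      (∀ N, (e N).2 ∈ S (e N).1) ∧ ∀ n, ∀ a ∈ S n, ∃ N, e N = (n, a) := by
  classical
  let C : ℕ → ℕ := fun n => ∑ m ∈ Finset.range n, (S m).card
  have hC0 : C 0 = 0 := by simp [C]
  have hCs : ∀ n, C (n + 1) = C n + (S n).card := fun n => Finset.sum_range_succ _ _
  have hmono : StrictMono C := by
    apply strictMono_nat_of_lt_succ
    intro n
    rw [hCs]
    have := Finset.card_pos.mpr (hS n)
    omega
  have hCge : ∀ n, n ≤ C n := fun n => hmono.id_le n
  let idx : ℕ → ℕ := fun N => Nat.findGreatest (fun n => C n ≤ N) N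
  have hidx1 : ∀ N, C (idx N) ≤ N := fun N =>
    Nat.findGreatest_spec (P := fun n => C n ≤ N) (m := 0) (Nat.zero_le _) (by simp [hC0])
  have hidx2 : ∀ N, N < C (idx N + 1) := by
    intro N
    by_contra hcon
    rw [not_lt] at hcon
    have h1 : idx N + 1 ≤ N := le_trans (hCge _) hcon
    exact Nat.findGreatest_is_greatest (P := fun n => C n ≤ N) (Nat.lt_succ_self _) h1 hcon
  have hidx3 : ∀ N, idx N ≤ N := fun N => Nat.findGreatest_le _
  have huniq : ∀ N m, C m ≤ N → N < C (m + 1) → idx N = m := by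
    intro N m h1 h2
    have h3 : C (idx N) < C (m + 1) := lt_of_le_of_lt (hidx1 N) h2
    have h4 : C m < C (idx N + 1) := lt_of_le_of_lt h1 (hidx2 N)
    have h5 := hmono.lt_iff_lt.mp h3
    have h6 := hmono.lt_iff_lt.mp h4
    omega
  refine ⟨fun N => (idx N, (S (idx N)).toList.getD (N - C (idx N)) default), hidx3, ?_, ?_, ?_⟩
  · rw [tendsto_atTop_atTop]
    intro m
    refine ⟨C m, fun N hN => ?_⟩
    by_contra hcon
    rw [not_le] at hcon
    have h1 : C (idx N + 1) ≤ C m := hmono.monotone hcon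
    have h2 := hidx2 N
    omega
  · intro N
    have h1 := hidx1 N
    have h2 := hidx2 N
    rw [hCs] at h2
    have h3 : N - C (idx N) < (S (idx N)).toList.length := by
      rw [Finset.length_toList]; omega
    show (S (idx N)).toList.getD (N - C (idx N)) default ∈ S (idx N)
    rw [List.getD_eq_getElem _ _ h3, ← Finset.mem_toList]
    exact List.getElem_mem h3
  · intro n a ha
    rw [← Finset.mem_toList, List.mem_iff_getElem] at ha
    obtain ⟨i, hi, rfl⟩ := ha
    have hi' : i < (S n).card := by rwa [Finset.length_toList] at hi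
    have h1 : idx (C n + i) = n := huniq _ _ (by omega) (by rw [hCs]; omega)
    refine ⟨C n + i, ?_⟩
    simp only [h1, Nat.add_sub_cancel_left]
    rw [List.getD_eq_getElem _ _ hi]

/-! ### The pull-back ideal of a finite-to-one surjection -/

/-- The ideal of all sets whose image under `π` has density zero. -/
def imIdeal (π : ℕ → ℕ) : Set (Set ℕ) := {A | π '' A ∈ densityZero}

lemma densityZero_subset {A B : Set ℕ} (hA : A ∈ densityZero) (h : B ⊆ A) : B ∈ densityZero := by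
  refine squeeze_zero (fun n => by positivity) (fun n => ?_) hA
  have : (B ∩ Set.Iio n).ncard ≤ (A ∩ Set.Iio n).ncard :=
    Set.ncard_le_ncard (Set.inter_subset_inter_left _ h)
      ((Set.finite_Iio n).subset Set.inter_subset_right)
  gcongr

lemma densityZero_union {A B : Set ℕ} (hA : A ∈ densityZero) (hB : B ∈ densityZero) :
    A ∪ B ∈ densityZero := by
  have h := Tendsto.add hA hB
  rw [add_zero] at h
  refine squeeze_zero (fun n => by positivity) (fun n => ?_) h
  have : ((A ∪ B) ∩ Set.Iio n).ncard ≤ (A ∩ Set.Iio n).ncard + (B ∩ Set.Iio n).ncard := by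
    rw [Set.union_inter_distrib_right]
    exact Set.ncard_union_le _ _
  rw [← add_div]
  gcongr
  exact_mod_cast this

lemma densityZero_finite {A : Set ℕ} (hA : A.Finite) : A ∈ densityZero := by
  have h1 : Tendsto (fun n : ℕ => (A.ncard : ℝ) / n) atTop (𝓝 0) :=
    tendsto_const_div_atTop_nhds_zero_nat _
  refine squeeze_zero (fun n => by positivity) (fun n => ?_) h1
  have : (A ∩ Set.Iio n).ncard ≤ A.ncard := Set.ncard_le_ncard Set.inter_subset_left hA
  gcongr

lemma univ_not_densityZero_of_cofinite {A : Set ℕ} (k0 : ℕ) (hA : ∀ k, k0 ≤ k → k ∈ A) :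
    A ∉ densityZero := by
  intro h
  rw [mem_densityZero_iff, Metric.tendsto_atTop] at h
  obtain ⟨N0, hN0⟩ := h 1 one_pos
  have h1 := hN0 (max N0 k0) (le_max_left _ _)
  set N := max N0 k0
  have hk : k0 ≤ N := le_max_right _ _
  have h2 : blk A N = 2 ^ N := by
    unfold blk
    have : A ∩ Set.Ico (2 ^ N) (2 ^ (N + 1)) = Set.Ico (2 ^ N) (2 ^ (N + 1)) := by
      apply Set.inter_eq_right.mpr
      intro x hx
      apply hA
      have : N < 2 ^ N := Nat.lt_two_pow_self
      have := hx.1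
      omega
    rw [this, Set.ncard_eq_toFinset_card' (Set.Ico (2 ^ N) (2 ^ (N + 1)))]
    simp [pow_succ]
    omega
  rw [h2] at h1
  simp at h1

lemma isIdeal_imIdeal (π : ℕ → ℕ) (hs : Function.Surjective π) : IsIdeal (imIdeal π) where
  union_mem A hA B hB := by
    show π '' (A ∪ B) ∈ densityZero
    rw [Set.image_union]
    exact densityZero_union hA hB
  subset_mem A hA B hB := densityZero_subset hA (Set.image_mono hB)
  finite_mem A hA := densityZero_finite (hA.image π)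
  proper h := by
    have h' : π '' Set.univ ∈ densityZero := h
    rw [Set.image_univ, hs.range_eq] at h'
    exact univ_not_densityZero_of_cofinite 0 (fun k _ => Set.mem_univ k) h'

lemma RBle_densityZero_imIdeal (π : ℕ → ℕ) (hs : Function.Surjective π)
    (hf : ∀ k, (π ⁻¹' {k}).Finite) : RBle densityZero (imIdeal π) := by
  refine ⟨π, hf, fun A => ?_⟩
  show A ∈ densityZero ↔ π '' (π ⁻¹' A) ∈ densityZero
  rw [Set.image_preimage_eq A hs]

lemma card_periodic (p : ℕ → Prop) [DecidablePred p] (a : ℕ) (hp : Function.Periodic p a) (s : ℕ) :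
    ∀ q : ℕ, ((Finset.Ico s (s + q * a)).filter p).card = q * Nat.count p a := by
  intro q
  induction q with
  | zero => simp
  | succ q ih =>
    have h1 : Finset.Ico s (s + (q + 1) * a) =
        Finset.Ico s (s + q * a) ∪ Finset.Ico (s + q * a) (s + q * a + a) := by
      rw [Finset.Ico_union_Ico_eq_Ico]
      · congr 1; ring
      · omega
      · omega
    rw [h1, Finset.filter_union, Finset.card_union_of_disjoint, ih,
      Nat.filter_Ico_card_eq_of_periodic _ _ _ hp]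
    · ring
    · apply Finset.disjoint_filter_filter
      exact Finset.Ico_disjoint_Ico_consecutive _ _ _

lemma card_fibre_block (A : Set ℕ) (h : ℕ → ℕ) {n N : ℕ} (hn : n ≤ N) :
    ({j | h (2 ^ n + j % 2 ^ n) ∈ A} ∩ Set.Ico (2 ^ N) (2 ^ (N + 1))).ncard =
      2 ^ (N - n) * ({k | h k ∈ A} ∩ Set.Ico (2 ^ n) (2 ^ (n + 1))).ncard := by
  classical
  have hper : Function.Periodic (fun j => h (2 ^ n + j % 2 ^ n) ∈ A) (2 ^ n) := by
    intro j
    simp
  have h1 : {j | h (2 ^ n + j % 2 ^ n) ∈ A} ∩ Set.Ico (2 ^ N) (2 ^ (N + 1)) =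
      (((Finset.Ico (2 ^ N) (2 ^ (N + 1))).filter (fun j => h (2 ^ n + j % 2 ^ n) ∈ A) : Finset ℕ) :
        Set ℕ) := by
    ext j
    simp [and_comm]
  have h2 : 2 ^ (N + 1) = 2 ^ N + 2 ^ (N - n) * 2 ^ n := by
    rw [← pow_add, Nat.sub_add_cancel hn, pow_succ]; ring
  have h3 : {k | h k ∈ A} ∩ Set.Ico (2 ^ n) (2 ^ (n + 1)) =
      (((Finset.Ico (2 ^ n) (2 ^ n + 2 ^ n)).filter (fun k => h (2 ^ n + k % 2 ^ n) ∈ A) : Finset ℕ) :
        Set ℕ) := by
    have : 2 ^ (n + 1) = 2 ^ n + 2 ^ n := by rw [pow_succ]; ring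
    rw [this]
    ext k
    simp only [Set.mem_inter_iff, Set.mem_ofPred_eq, Set.mem_Ico, Finset.coe_filter, Finset.mem_Ico]
    constructor
    · rintro ⟨h4, h5, h6⟩
      refine ⟨⟨h5, h6⟩, ?_⟩
      have h7 : k % 2 ^ n = k - 2 ^ n := by
        rw [Nat.mod_eq_sub_mod h5, Nat.mod_eq_of_lt (by omega)]
      rw [h7, Nat.add_sub_cancel' h5]
      exact h4
    · rintro ⟨⟨h5, h6⟩, h4⟩
      refine ⟨?_, h5, h6⟩
      have h7 : k % 2 ^ n = k - 2 ^ n := by
        rw [Nat.mod_eq_sub_mod h5, Nat.mod_eq_of_lt (by omega)]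
      rw [h7, Nat.add_sub_cancel' h5] at h4
      exact h4
  rw [h1, h3, Set.ncard_coe_finset, Set.ncard_coe_finset, h2, card_periodic _ _ hper,
    Nat.filter_Ico_card_eq_of_periodic _ _ _ hper]

lemma RBle_imIdeal_densityZero (π : ℕ → ℕ) (hs : Function.Surjective π)
    (hf : ∀ k, (π ⁻¹' {k}).Finite) : RBle (imIdeal π) densityZero := by
  classical
  obtain ⟨s0, hs0⟩ := hs.hasRightInverse
  -- the finite family of selectors over the `n`-th dyadic block
  let T : ℕ → Set (ℕ → ℕ) := fun n =>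
    {h | (∀ k ∈ Set.Ico (2 ^ n) (2 ^ (n + 1)), π (h k) = k) ∧
      ∀ k ∉ Set.Ico (2 ^ n) (2 ^ (n + 1)), h k = s0 k}
  have hTfin : ∀ n, (T n).Finite := by
    intro n
    let r : (ℕ → ℕ) → (Finset.Ico (2 ^ n) (2 ^ (n + 1)) → ℕ) := fun h k => h k
    have hinj : Set.InjOn r (T n) := by
      intro h hh h' hh' heq
      funext k
      by_cases hk : k ∈ Set.Ico (2 ^ n) (2 ^ (n + 1))
      · exact congrFun heq ⟨k, by simpa using hk⟩
      · rw [hh.2 k hk, hh'.2 k hk]
    have himg : (r '' T n).Finite := by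
      have hpi : (Set.pi Set.univ (fun k : Finset.Ico (2 ^ n) (2 ^ (n + 1)) => π ⁻¹' {(k : ℕ)})).Finite :=
        Set.Finite.pi (fun k => hf _)
      refine hpi.subset ?_
      rintro _ ⟨h, hh, rfl⟩ k _
      exact hh.1 k (Finset.mem_Ico.mp k.2)
    exact Set.Finite.of_finite_image himg hinj
  let S : ℕ → Finset (ℕ → ℕ) := fun n => (hTfin n).toFinset
  have hSne : ∀ n, (S n).Nonempty := by
    intro n
    refine ⟨s0, ?_⟩
    rw [Set.Finite.mem_toFinset]
    exact ⟨fun k _ => hs0 k, fun _ _ => rfl⟩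
  obtain ⟨e, he1, he2, he3, he4⟩ := exists_enum S hSne
  have hsel : ∀ N k, π ((e N).2 k) = k := by
    intro N k
    have h1 := he3 N
    rw [Set.Finite.mem_toFinset] at h1
    by_cases hk : k ∈ Set.Ico (2 ^ (e N).1) (2 ^ ((e N).1 + 1))
    · exact h1.1 k hk
    · rw [h1.2 k hk]; exact hs0 k
  let φ : ℕ → ℕ := fun j =>
    (e (Nat.log 2 j)).2 (2 ^ (e (Nat.log 2 j)).1 + j % 2 ^ (e (Nat.log 2 j)).1)
  have hblk : ∀ (A : Set ℕ) (N : ℕ), (blk (φ ⁻¹' A) N : ℝ) / 2 ^ N =
      (({k | (e N).2 k ∈ A} ∩ Set.Ico (2 ^ (e N).1) (2 ^ ((e N).1 + 1))).ncard : ℝ) / 2 ^ (e N).1 := by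
    intro A N
    have h1 : φ ⁻¹' A ∩ Set.Ico (2 ^ N) (2 ^ (N + 1)) =
        {j | (e N).2 (2 ^ (e N).1 + j % 2 ^ (e N).1) ∈ A} ∩ Set.Ico (2 ^ N) (2 ^ (N + 1)) := by
      ext j
      simp only [Set.mem_inter_iff, Set.mem_preimage, Set.mem_ofPred_eq, and_congr_left_iff, φ]
      intro hj
      have : Nat.log 2 j = N := (Nat.log_eq_iff (Or.inr ⟨by norm_num, by
        have := hj.1; have := Nat.two_pow_pos N; omega⟩)).mpr ⟨hj.1, hj.2⟩
      rw [this]
    unfold blk
    rw [h1, card_fibre_block A (e N).2 (he1 N)]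
    push_cast
    have h2 : (2 : ℝ) ^ N = 2 ^ (N - (e N).1) * 2 ^ (e N).1 := by
      rw [← pow_add, Nat.sub_add_cancel (he1 N)]
    rw [h2, mul_div_mul_left _ _ (by positivity)]
  refine ⟨φ, ?_, fun A => ⟨fun hA => ?_, fun hA => ?_⟩⟩
  · -- finite-to-one
    intro x
    obtain ⟨M, hM⟩ := (tendsto_atTop_atTop.mp he2) (π x + 1)
    refine (Set.finite_Iio (2 ^ (M + 1))).subset ?_
    intro j hj
    by_contra hcon
    rw [Set.mem_Iio, not_lt] at hcon
    have hj0 : j ≠ 0 := by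
      have := Nat.two_pow_pos (M + 1); omega
    have h1 : M ≤ Nat.log 2 j := le_trans (Nat.le_succ M) (Nat.le_log_of_pow_le (by norm_num) hcon)
    have h2 := hM _ h1
    have h3 : π (φ j) = 2 ^ (e (Nat.log 2 j)).1 + j % 2 ^ (e (Nat.log 2 j)).1 := hsel _ _
    have h4 : φ j = x := hj
    rw [h4] at h3
    have h5 : (e (Nat.log 2 j)).1 < 2 ^ (e (Nat.log 2 j)).1 := Nat.lt_two_pow_self
    omega
  · -- the image has density zero
    rw [mem_densityZero_iff]
    have hA' : π '' A ∈ densityZero := hA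
    rw [mem_densityZero_iff] at hA'
    have h1 := hA'.comp he2
    refine squeeze_zero (fun N => by positivity) (fun N => ?_) h1
    rw [hblk]
    show _ ≤ (blk (π '' A) (e N).1 : ℝ) / 2 ^ (e N).1
    have h2 : ({k | (e N).2 k ∈ A} ∩ Set.Ico (2 ^ (e N).1) (2 ^ ((e N).1 + 1))).ncard ≤
        blk (π '' A) (e N).1 := by
      apply Set.ncard_le_ncard
      · rintro k ⟨hk1, hk2⟩
        exact ⟨⟨_, hk1, hsel N k⟩, hk2⟩
      · exact (Set.finite_Ico _ _).subset Set.inter_subset_right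
    gcongr
  · show π '' A ∈ densityZero
    rw [mem_densityZero_iff] at hA ⊢
    -- the selector adapted to `A`
    let hsA : ℕ → ℕ := fun k => if hk : ∃ a ∈ A, π a = k then hk.choose else s0 k
    have hsA1 : ∀ k, π (hsA k) = k := by
      intro k
      by_cases hk : ∃ a ∈ A, π a = k
      · simp only [hsA, dif_pos hk]; exact hk.choose_spec.2
      · simp only [hsA, dif_neg hk]; exact hs0 k
    have hsA2 : ∀ k ∈ π '' A, hsA k ∈ A := by
      rintro k ⟨a, ha, hak⟩
      have hk : ∃ a ∈ A, π a = k := ⟨a, ha, hak⟩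
      simp only [hsA, dif_pos hk]; exact hk.choose_spec.1
    have hN : ∀ n, ∃ N, (e N).1 = n ∧ ∀ k ∈ Set.Ico (2 ^ n) (2 ^ (n + 1)), (e N).2 k = hsA k := by
      intro n
      let h : ℕ → ℕ := fun k => if k ∈ Set.Ico (2 ^ n) (2 ^ (n + 1)) then hsA k else s0 k
      have hh : h ∈ S n := by
        rw [Set.Finite.mem_toFinset]
        refine ⟨fun k hk => ?_, fun k hk => ?_⟩
        · simp only [h, if_pos hk]; exact hsA1 k
        · simp only [h, if_neg hk]
      obtain ⟨N, hN⟩ := he4 n h hh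
      refine ⟨N, by rw [hN], fun k hk => ?_⟩
      rw [hN]
      simp only [h, if_pos hk]
    choose Nn hNn1 hNn2 using hN
    have hNn3 : Tendsto Nn atTop atTop := by
      apply tendsto_atTop_mono (f := fun n => n) _ tendsto_id
      intro n
      have := he1 (Nn n)
      rw [hNn1] at this
      exact this
    have h1 := hA.comp hNn3
    refine squeeze_zero (fun N => by positivity) (fun n => ?_) h1
    show _ ≤ (blk (φ ⁻¹' A) (Nn n) : ℝ) / 2 ^ (Nn n)
    rw [hblk, hNn1]
    have h2 : blk (π '' A) n ≤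
        ({k | (e (Nn n)).2 k ∈ A} ∩ Set.Ico (2 ^ n) (2 ^ (n + 1))).ncard := by
      apply Set.ncard_le_ncard
      · rintro k ⟨hk1, hk2⟩
        refine ⟨?_, hk2⟩
        show (e (Nn n)).2 k ∈ A
        rw [hNn2 n k hk2]
        exact hsA2 k hk1
      · exact (Set.finite_Ico _ _).subset Set.inter_subset_right
    gcongr

/-! ### Erdos-Ulam ideals contain large selectors of families of huge finite sets -/

lemma EU_of_bound {f : ℕ → ℝ} (hf : IsEUWeight f) {A : Set ℕ}
    (h : ∀ ε > 0, ∃ C : ℝ, ∀ m, ∑ i ∈ Finset.range m, A.indicator f i ≤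
      C + ε * ∑ i ∈ Finset.range m, f i) : A ∈ EU f := by
  show Tendsto _ _ _
  rw [Metric.tendsto_atTop]
  intro ε hε
  obtain ⟨C, hC⟩ := h (ε / 2) (by positivity)
  obtain ⟨M, hM⟩ := (tendsto_atTop_atTop.mp hf.sum_infinite) (max 1 (2 * C / ε + 1))
  refine ⟨M, fun m hm => ?_⟩
  have h1 := hM m hm
  have h2 : 1 ≤ ∑ i ∈ Finset.range m, f i := le_trans (le_max_left _ _) h1
  have h3 : 2 * C / ε + 1 ≤ ∑ i ∈ Finset.range m, f i := le_trans (le_max_right _ _) h1
  have h4 : 0 ≤ ∑ i ∈ Finset.range m, A.indicator f i :=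
    Finset.sum_nonneg (fun i _ => Set.indicator_nonneg (fun j _ => hf.nonneg j) i)
  rw [Real.dist_eq, sub_zero, abs_of_nonneg (by positivity), div_lt_iff₀ (by linarith)]
  have h5 : 2 * C / ε < ∑ i ∈ Finset.range m, f i := by linarith
  rw [div_lt_iff₀ hε] at h5
  have := hC m
  nlinarith

lemma EU_union {f : ℕ → ℝ} (hf : IsEUWeight f) {A B : Set ℕ} (hA : A ∈ EU f) (hB : B ∈ EU f) :
    A ∪ B ∈ EU f := by
  have h := Tendsto.add hA hB
  rw [add_zero] at h
  have hF : ∀ n, 0 ≤ ∑ i ∈ Finset.range n, f i :=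
    fun n => Finset.sum_nonneg (fun i _ => hf.nonneg i)
  refine squeeze_zero (fun n => ?_) (fun n => ?_) h
  · exact div_nonneg (Finset.sum_nonneg (fun i _ => Set.indicator_nonneg (fun j _ => hf.nonneg j) i))
      (hF n)
  · rw [← add_div, ← Finset.sum_add_distrib]
    apply div_le_div_of_nonneg_right _ (hF n)
    apply Finset.sum_le_sum
    intro i _
    have := hf.nonneg i
    by_cases h1 : i ∈ A <;> by_cases h2 : i ∈ B <;> simp [Set.indicator, h1, h2, this]

lemma sum_two_pow_le (T : ℕ) : ∑ t ∈ Finset.range (T + 1), (2 : ℝ) ^ (t + 1) ≤ 4 * 2 ^ T := by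
  have : ∀ T : ℕ, ∑ t ∈ Finset.range T, (2 : ℝ) ^ (t + 1) ≤ 2 * 2 ^ T := by
    intro T
    induction T with
    | zero => simp
    | succ T ih =>
      rw [Finset.sum_range_succ]
      have h1 : (2 : ℝ) ^ (T + 1) = 2 * 2 ^ T := by rw [pow_succ]; ring
      rw [h1]
      linarith
  have h1 := this (T + 1)
  have h2 : (2 : ℝ) ^ (T + 1) = 2 * 2 ^ T := by rw [pow_succ]; ring
  rw [h2] at h1
  linarith

lemma exists_selector {f : ℕ → ℝ} (hf : IsEUWeight f) (X : ℕ → Finset ℕ)
    (hX : Pairwise (fun j k => Disjoint (X j) (X k))) (k0 : ℕ)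
    (hcard : ∀ k, k0 ≤ k → (k + 1) * 2 ^ (k + 1) ≤ (X k).card) :
    ∃ (k1 : ℕ) (s : ℕ → ℕ), (∀ k, k1 ≤ k → s k ∈ X k) ∧ s '' Set.Ici k1 ∈ EU f := by
  classical
  set F : ℕ → ℝ := fun m => ∑ i ∈ Finset.range m, f i with hF
  have hFmono : Monotone F := by
    apply monotone_nat_of_le_succ
    intro n
    simp only [hF]
    rw [Finset.sum_range_succ]
    linarith [hf.nonneg n]
  obtain ⟨i0, hi0⟩ := (tendsto_atTop_atTop.mp hf.sum_infinite) 1
  have hF1 : ∀ m, i0 ≤ m → 1 ≤ F m := hi0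
  set w : ℕ → ℝ := fun i => f i / F (i + 1) with hw
  have hfw : ∀ i, i0 ≤ i → f i = w i * F (i + 1) := by
    intro i hi
    have := hF1 (i + 1) (by omega)
    simp only [hw]
    rw [div_mul_cancel₀ _ (by linarith)]
  have hw0 : ∀ i, i0 ≤ i → 0 ≤ w i := by
    intro i hi
    have := hF1 (i + 1) (by omega)
    exact div_nonneg (hf.nonneg i) (by linarith)
  set τ : ℕ → ℕ := fun i => Nat.log 2 ⌊F (i + 1)⌋₊ with hτ
  have hlog1 : ∀ m, i0 ≤ m → (2 : ℝ) ^ Nat.log 2 ⌊F m⌋₊ ≤ F m := by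
    intro m hm
    have h1 := hF1 m hm
    have h2 : ⌊F m⌋₊ ≠ 0 := by
      have := (Nat.one_le_floor_iff (F m)).mpr h1
      omega
    have h3 : 2 ^ Nat.log 2 ⌊F m⌋₊ ≤ ⌊F m⌋₊ := Nat.pow_log_le_self 2 h2
    calc (2 : ℝ) ^ Nat.log 2 ⌊F m⌋₊ = ((2 ^ Nat.log 2 ⌊F m⌋₊ : ℕ) : ℝ) := by push_cast; rfl
      _ ≤ (⌊F m⌋₊ : ℝ) := by exact_mod_cast h3
      _ ≤ F m := Nat.floor_le (by linarith)
  have hlog2 : ∀ m, F m < (2 : ℝ) ^ (Nat.log 2 ⌊F m⌋₊ + 1) := by
    intro m
    have h3 : ⌊F m⌋₊ < 2 ^ (Nat.log 2 ⌊F m⌋₊ + 1) := Nat.lt_pow_succ_log_self (by norm_num) _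
    have h4 : (⌊F m⌋₊ : ℝ) + 1 ≤ (2 : ℝ) ^ (Nat.log 2 ⌊F m⌋₊ + 1) := by exact_mod_cast h3
    linarith [Nat.lt_floor_add_one (F m)]
  -- all the sets far out avoid an initial segment
  have hfar : ∀ i1 : ℕ, ∃ k1, ∀ k, k1 ≤ k → ∀ i ∈ X k, i1 ≤ i := by
    intro i1
    induction i1 with
    | zero => exact ⟨0, fun _ _ _ _ => Nat.zero_le _⟩
    | succ i1 ih =>
      obtain ⟨k1, hk1⟩ := ih
      by_cases hex : ∃ k', i1 ∈ X k'
      · obtain ⟨k', hk'⟩ := hex
        refine ⟨max k1 (k' + 1), fun k hk i hi => ?_⟩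
        have h1 := hk1 k (le_trans (le_max_left _ _) hk) i hi
        have h2 : k' + 1 ≤ k := le_trans (le_max_right _ _) hk
        rcases eq_or_lt_of_le h1 with h3 | h3
        · exfalso
          subst h3
          exact Finset.disjoint_left.mp (hX (show k' ≠ k by omega)) hk' hi
        · exact h3
      · refine ⟨k1, fun k hk i hi => ?_⟩
        have h1 := hk1 k hk i hi
        rcases eq_or_lt_of_le h1 with h3 | h3
        · exfalso
          subst h3
          exact hex ⟨k, hi⟩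
        · exact h3
  obtain ⟨k2, hk2⟩ := hfar i0
  set k1 := max k0 k2 with hk1
  have hXi0 : ∀ k, k1 ≤ k → ∀ i ∈ X k, i0 ≤ i := fun k hk => hk2 k (le_trans (le_max_right _ _) hk)
  have hXc : ∀ k, k1 ≤ k → (k + 1) * 2 ^ (k + 1) ≤ (X k).card :=
    fun k hk => hcard k (le_trans (le_max_left _ _) hk)
  have hXne : ∀ k, k1 ≤ k → (X k).Nonempty := by
    intro k hk
    rw [← Finset.card_pos]
    exact lt_of_lt_of_le (by positivity) (hXc k hk)
  let tiny : ℕ → Prop := fun k => ∃ i ∈ X k, w i ≤ (1 / 2) ^ k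
  -- many scales in the sets which have no tiny element
  have hscale : ∀ k, k1 ≤ k → ¬ tiny k → k + 1 ≤ ((X k).image τ).card := by
    intro k hk hnt
    have h1 : (X k).card ≤ 2 ^ (k + 1) * ((X k).image τ).card := by
      apply Finset.card_le_mul_card_image
      intro t _
      set Y := (X k).filter (fun x => τ x = t) with hY
      have hY1 : ∀ i ∈ Y, (1 / 2 : ℝ) ^ k * 2 ^ t ≤ f i := by
        intro i hi
        rw [hY, Finset.mem_filter] at hi
        have h2 := hXi0 k hk i hi.1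
        have h3 : (1 / 2 : ℝ) ^ k < w i := by
          by_contra hcon
          exact hnt ⟨i, hi.1, not_lt.mp hcon⟩
        have h4 : (2 : ℝ) ^ t ≤ F (i + 1) := by
          rw [← hi.2]; exact hlog1 (i + 1) (by omega)
        rw [hfw i h2]
        exact mul_le_mul h3.le h4 (by positivity) (hw0 i h2)
      have hY2 : ∑ i ∈ Y, f i ≤ 2 ^ (t + 1) := by
        rcases Y.eq_empty_or_nonempty with h | h
        · rw [h]; simp
        · have hM := Y.max'_mem h
          have h2 : Y ⊆ Finset.range (Y.max' h + 1) := by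
            intro i hi
            rw [Finset.mem_range]
            exact Nat.lt_succ_of_le (Finset.le_max' _ _ hi)
          have h3 : ∑ i ∈ Y, f i ≤ F (Y.max' h + 1) :=
            Finset.sum_le_sum_of_subset_of_nonneg h2 (fun i _ _ => hf.nonneg i)
          have h4 := hlog2 (Y.max' h + 1)
          have h5 : Nat.log 2 ⌊F (Y.max' h + 1)⌋₊ = t := (Finset.mem_filter.mp hM).2
          rw [h5] at h4
          linarith
      have hY3 : (Y.card : ℝ) * ((1 / 2 : ℝ) ^ k * 2 ^ t) ≤ ∑ i ∈ Y, f i := by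
        have := Finset.card_nsmul_le_sum Y f _ hY1
        simpa [nsmul_eq_mul] using this
      have hY4 : (Y.card : ℝ) * ((1 / 2 : ℝ) ^ k * 2 ^ t) ≤ 2 ^ (t + 1) := le_trans hY3 hY2
      have hY5 : (Y.card : ℝ) ≤ 2 ^ (k + 1) := by
        have h6 : (0 : ℝ) < (1 / 2 : ℝ) ^ k * 2 ^ t := by positivity
        have h7 : (2 : ℝ) ^ (k + 1) * ((1 / 2 : ℝ) ^ k * 2 ^ t) = 2 ^ (t + 1) := by
          have : (2 : ℝ) ^ k * (1 / 2) ^ k = 1 := by rw [← mul_pow]; norm_num
          calc (2 : ℝ) ^ (k + 1) * ((1 / 2 : ℝ) ^ k * 2 ^ t)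
              = (2 ^ k * (1 / 2) ^ k) * (2 ^ t * 2) := by rw [pow_succ]; ring
            _ = 2 ^ (t + 1) := by rw [this, one_mul, pow_succ]
        rw [← h7] at hY4
        exact le_of_mul_le_mul_right hY4 h6
      exact_mod_cast hY5
    have h2 := le_trans (hXc k hk) h1
    rw [mul_comm] at h2
    exact Nat.le_of_mul_le_mul_left h2 (by positivity)
  -- distinct scales by Hall
  let ι := {k : ℕ // k1 ≤ k ∧ ¬ tiny k}
  have hHall : ∀ s : Finset ι, s.card ≤ (s.biUnion (fun x : ι => (X x.1).image τ)).card := by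
    intro s
    rcases s.eq_empty_or_nonempty with h | h
    · rw [h]; simp
    · obtain ⟨x, hx, hmax⟩ := Finset.exists_max_image s (fun x : ι => x.1) h
      have h1 : s.card ≤ x.1 + 1 := by
        have : (s.image (fun x : ι => x.1)) ⊆ Finset.range (x.1 + 1) := by
          intro k hk
          rw [Finset.mem_image] at hk
          obtain ⟨y, hy, rfl⟩ := hk
          rw [Finset.mem_range]
          exact Nat.lt_succ_of_le (hmax y hy)
        have h2 := Finset.card_le_card this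
        rw [Finset.card_range, Finset.card_image_of_injective _ Subtype.val_injective] at h2
        exact h2
      refine h1.trans ((hscale x.1 x.2.1 x.2.2).trans ?_)
      apply Finset.card_le_card
      exact Finset.subset_biUnion_of_mem (fun x : ι => (X x.1).image τ) hx
  obtain ⟨g, hginj, hg⟩ := (Finset.all_card_le_biUnion_card_iff_exists_injective _).mp hHall
  have hg' : ∀ x : ι, ∃ i ∈ X x.1, τ i = g x := by
    intro x
    have := hg x
    rwa [Finset.mem_image] at this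
  choose s2 hs2a hs2b using hg'
  let s : ℕ → ℕ := fun k =>
    if h : k1 ≤ k then (if h' : tiny k then h'.choose else s2 ⟨k, h, h'⟩) else 0
  have hs1 : ∀ k, k1 ≤ k → tiny k → s k ∈ X k ∧ w (s k) ≤ (1 / 2) ^ k := by
    intro k hk ht
    simp only [s, dif_pos hk, dif_pos ht]
    exact ht.choose_spec
  have hs2 : ∀ k (hk : k1 ≤ k) (ht : ¬ tiny k), s k ∈ X k ∧ τ (s k) = g ⟨k, hk, ht⟩ := by
    intro k hk ht
    simp only [s, dif_pos hk, dif_neg ht]
    exact ⟨hs2a _, hs2b _⟩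
  have hsX : ∀ k, k1 ≤ k → s k ∈ X k := by
    intro k hk
    by_cases ht : tiny k
    · exact (hs1 k hk ht).1
    · exact (hs2 k hk ht).1
  have hsplit : s '' Set.Ici k1 ⊆ s '' {k | k1 ≤ k ∧ tiny k} ∪ s '' {k | k1 ≤ k ∧ ¬ tiny k} := by
    rintro _ ⟨k, hk, rfl⟩
    by_cases ht : tiny k
    · exact Or.inl ⟨k, ⟨hk, ht⟩, rfl⟩
    · exact Or.inr ⟨k, ⟨hk, ht⟩, rfl⟩
  have hS1 : s '' {k | k1 ≤ k ∧ tiny k} ∈ EU f := by
    apply EU_of_bound hf
    intro ε hε
    obtain ⟨E0, hE0⟩ := (summable_iff_vanishing_norm.mp summable_geometric_two) ε hε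
    refine ⟨∑ k ∈ E0, f (s k), fun m => ?_⟩
    set Q := (Finset.range m).filter (fun i => i ∈ s '' {k | k1 ≤ k ∧ tiny k}) with hQ
    have h1 : ∑ i ∈ Finset.range m, (s '' {k | k1 ≤ k ∧ tiny k}).indicator f i = ∑ i ∈ Q, f i := by
      rw [hQ, Finset.sum_filter]
      apply Finset.sum_congr rfl
      intro i _
      simp only [Set.indicator]
    rw [h1]
    have hκ : ∀ i : ℕ, ∃ k, i ∈ Q → (k1 ≤ k ∧ tiny k) ∧ s k = i := by
      intro i
      by_cases hi : i ∈ Q
      · have := (Finset.mem_filter.mp hi).2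
        obtain ⟨k, hk1, hk2⟩ := this
        exact ⟨k, fun _ => ⟨hk1, hk2⟩⟩
      · exact ⟨0, fun h => absurd h hi⟩
    choose κ hκ using hκ
    have hκinj : Set.InjOn κ Q := by
      intro i hi j hj hij
      rw [← (hκ i hi).2, ← (hκ j hj).2, hij]
    rw [← Finset.sum_filter_add_sum_filter_not Q (fun i => κ i ∈ E0)]
    apply add_le_add
    · have h2 : ∑ i ∈ Q.filter (fun i => κ i ∈ E0), f i =
          ∑ k ∈ (Q.filter (fun i => κ i ∈ E0)).image κ, f (s k) := by
        rw [Finset.sum_image]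
        · apply Finset.sum_congr rfl
          intro i hi
          rw [(hκ i (Finset.mem_filter.mp hi).1).2]
        · intro i hi j hj hij
          exact hκinj (Finset.mem_filter.mp hi).1 (Finset.mem_filter.mp hj).1 hij
      rw [h2]
      apply Finset.sum_le_sum_of_subset_of_nonneg
      · intro k hk
        rw [Finset.mem_image] at hk
        obtain ⟨i, hi, rfl⟩ := hk
        exact (Finset.mem_filter.mp hi).2
      · intro k _ _
        exact hf.nonneg _
    · have h2 : ∑ i ∈ Q.filter (fun i => ¬ κ i ∈ E0), f i ≤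
          ∑ i ∈ Q.filter (fun i => ¬ κ i ∈ E0), (1 / 2 : ℝ) ^ (κ i) * F m := by
        apply Finset.sum_le_sum
        intro i hi
        have hiQ := (Finset.mem_filter.mp hi).1
        have him : i < m := Finset.mem_range.mp (Finset.mem_filter.mp hiQ).1
        have h3 := hκ i hiQ
        have h4 := hs1 (κ i) h3.1.1 h3.1.2
        rw [h3.2] at h4
        have h5 := hXi0 _ h3.1.1 i h4.1
        rw [hfw i h5]
        apply mul_le_mul h4.2 (hFmono (by omega)) _ (by positivity)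
        linarith [hF1 (i + 1) (by omega)]
      refine h2.trans ?_
      rw [← Finset.sum_mul]
      have h6 : ∑ i ∈ Q.filter (fun i => ¬ κ i ∈ E0), (1 / 2 : ℝ) ^ (κ i) =
          ∑ k ∈ (Q.filter (fun i => ¬ κ i ∈ E0)).image κ, (1 / 2 : ℝ) ^ k := by
        rw [Finset.sum_image]
        intro i hi j hj hij
        exact hκinj (Finset.mem_filter.mp hi).1 (Finset.mem_filter.mp hj).1 hij
      have h7 : Disjoint ((Q.filter (fun i => ¬ κ i ∈ E0)).image κ) E0 := by
        rw [Finset.disjoint_left]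
        intro k hk
        rw [Finset.mem_image] at hk
        obtain ⟨i, hi, rfl⟩ := hk
        exact (Finset.mem_filter.mp hi).2
      have h8 := hE0 _ h7
      rw [Real.norm_of_nonneg (Finset.sum_nonneg (fun _ _ => by positivity))] at h8
      rw [h6]
      apply mul_le_mul_of_nonneg_right h8.le
      exact Finset.sum_nonneg (fun i _ => hf.nonneg i)
  have hS2 : s '' {k | k1 ≤ k ∧ ¬ tiny k} ∈ EU f := by
    apply EU_of_bound hf
    intro ε hε
    have hsmall := hf.small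
    rw [Metric.tendsto_atTop] at hsmall
    obtain ⟨N, hN⟩ := hsmall (ε / 4) (by positivity)
    refine ⟨F N, fun m => ?_⟩
    set Q := (Finset.range m).filter (fun i => i ∈ s '' {k | k1 ≤ k ∧ ¬ tiny k}) with hQ
    have h1 : ∑ i ∈ Finset.range m, (s '' {k | k1 ≤ k ∧ ¬ tiny k}).indicator f i = ∑ i ∈ Q, f i := by
      rw [hQ, Finset.sum_filter]
      apply Finset.sum_congr rfl
      intro i _
      simp only [Set.indicator]
    rw [h1]
    have hQprop : ∀ i ∈ Q, i < m ∧ i0 ≤ i := by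
      intro i hi
      refine ⟨Finset.mem_range.mp (Finset.mem_filter.mp hi).1, ?_⟩
      obtain ⟨k, hk, rfl⟩ := (Finset.mem_filter.mp hi).2
      exact hXi0 k hk.1 _ (hsX k hk.1)
    have hτinj : Set.InjOn τ Q := by
      intro i hi j hj hij
      obtain ⟨k, hk, rfl⟩ := (Finset.mem_filter.mp hi).2
      obtain ⟨l, hl, rfl⟩ := (Finset.mem_filter.mp hj).2
      have h2 := (hs2 k hk.1 hk.2).2
      have h3 := (hs2 l hl.1 hl.2).2
      have h4 : g ⟨k, hk.1, hk.2⟩ = g ⟨l, hl.1, hl.2⟩ := by rw [← h2, ← h3]; exact hij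
      have h5 := hginj h4
      have h6 : k = l := congrArg Subtype.val h5
      rw [h6]
    rcases Q.eq_empty_or_nonempty with hQe | hQne
    · rw [hQe]
      simp only [Finset.sum_empty]
      have h2 : 0 ≤ F N := Finset.sum_nonneg (fun i _ => hf.nonneg i)
      have h3 : 0 ≤ F m := Finset.sum_nonneg (fun i _ => hf.nonneg i)
      positivity
    have hm : i0 ≤ m := by
      obtain ⟨i, hi⟩ := hQne
      have := hQprop i hi
      omega
    rw [← Finset.sum_filter_add_sum_filter_not Q (fun i => i < N)]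
    apply add_le_add
    · apply Finset.sum_le_sum_of_subset_of_nonneg
      · intro i hi
        exact Finset.mem_range.mpr (Finset.mem_filter.mp hi).2
      · intro i _ _
        exact hf.nonneg i
    · have h2 : ∑ i ∈ Q.filter (fun i => ¬ i < N), f i ≤ ∑ i ∈ Q, (ε / 4) * 2 ^ (τ i + 1) := by
        have h3 : ∑ i ∈ Q.filter (fun i => ¬ i < N), f i ≤
            ∑ i ∈ Q.filter (fun i => ¬ i < N), (ε / 4) * 2 ^ (τ i + 1) := by
          apply Finset.sum_le_sum
          intro i hi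
          have hiQ := (Finset.mem_filter.mp hi).1
          have hiN : N ≤ i := not_lt.mp (Finset.mem_filter.mp hi).2
          have h4 := hQprop i hiQ
          have h5 := hN i hiN
          rw [Real.dist_eq, sub_zero] at h5
          have h6 : w i ≤ ε / 4 := le_trans (le_abs_self _) h5.le
          rw [hfw i h4.2]
          have h7 := hF1 (i + 1) (by omega)
          exact mul_le_mul h6 (hlog2 (i + 1)).le (by linarith) (by positivity)
        refine h3.trans ?_
        apply Finset.sum_le_sum_of_subset_of_nonneg (Finset.filter_subset _ _)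
        intro i _ _
        positivity
      refine h2.trans ?_
      rw [← Finset.mul_sum]
      have h8 : ∑ i ∈ Q, (2 : ℝ) ^ (τ i + 1) = ∑ t ∈ Q.image τ, (2 : ℝ) ^ (t + 1) := by
        rw [Finset.sum_image hτinj]
      have h9 : Q.image τ ⊆ Finset.range (Nat.log 2 ⌊F m⌋₊ + 1) := by
        intro t ht
        rw [Finset.mem_image] at ht
        obtain ⟨i, hi, rfl⟩ := ht
        rw [Finset.mem_range]
        apply Nat.lt_succ_of_le
        apply Nat.log_mono_right
        apply Nat.floor_mono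
        apply hFmono
        have := hQprop i hi
        omega
      have h10 : ∑ t ∈ Q.image τ, (2 : ℝ) ^ (t + 1) ≤ 4 * F m := by
        refine (Finset.sum_le_sum_of_subset_of_nonneg h9 (fun _ _ _ => by positivity)).trans ?_
        refine (sum_two_pow_le _).trans ?_
        have := hlog1 m hm
        linarith
      rw [h8]
      have h11 : ε / 4 * ∑ t ∈ Q.image τ, (2 : ℝ) ^ (t + 1) ≤ ε / 4 * (4 * F m) :=
        mul_le_mul_of_nonneg_left h10 (by positivity)
      refine h11.trans (le_of_eq ?_)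
      ring
  refine ⟨k1, s, hsX, ?_⟩
  have hU := EU_union hf hS1 hS2
  -- monotonicity
  refine squeeze_zero (fun n => ?_) (fun n => ?_) hU
  · exact div_nonneg (Finset.sum_nonneg (fun i _ => Set.indicator_nonneg (fun j _ => hf.nonneg j) i))
      (Finset.sum_nonneg (fun i _ => hf.nonneg i))
  · apply div_le_div_of_nonneg_right _ (Finset.sum_nonneg (fun i _ => hf.nonneg i))
    apply Finset.sum_le_sum
    intro i _
    exact Set.indicator_le_indicator_of_subset hsplit (fun j => hf.nonneg j) i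

/-! ### The example -/

/-- The map `a ↦ log₂ (log₂ a)`, rounded down. -/
def loglog (a : ℕ) : ℕ := Nat.log 2 (Nat.log 2 a)

lemma loglog_eq_of {k a : ℕ} (h1 : 2 ^ 2 ^ k ≤ a) (h2 : a < 2 ^ 2 ^ (k + 1)) : loglog a = k := by
  have ha : a ≠ 0 := by
    have := Nat.two_pow_pos (2 ^ k)
    omega
  have h3 : 2 ^ k ≤ Nat.log 2 a := Nat.le_log_of_pow_le (by norm_num) h1
  have h4 : Nat.log 2 a < 2 ^ (k + 1) := Nat.log_lt_of_lt_pow ha h2
  have h5 : Nat.log 2 a ≠ 0 := by
    have := Nat.two_pow_pos k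
    omega
  unfold loglog
  apply le_antisymm
  · exact Nat.lt_succ_iff.mp (Nat.log_lt_of_lt_pow h5 h4)
  · exact Nat.le_log_of_pow_le (by norm_num) h3

lemma loglog_surjective : Function.Surjective loglog := by
  intro k
  refine ⟨2 ^ 2 ^ k, loglog_eq_of le_rfl ?_⟩
  apply Nat.pow_lt_pow_right (by norm_num)
  exact Nat.pow_lt_pow_right (by norm_num) (Nat.lt_succ_self k)

lemma lt_of_loglog_eq {k a : ℕ} (h : loglog a = k) : a < 2 ^ 2 ^ (k + 1) := by
  subst h
  have h1 : Nat.log 2 a < 2 ^ (loglog a + 1) := Nat.lt_pow_succ_log_self (by norm_num) _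
  calc a < 2 ^ (Nat.log 2 a + 1) := Nat.lt_pow_succ_log_self (by norm_num) _
    _ ≤ 2 ^ 2 ^ (loglog a + 1) := Nat.pow_le_pow_right (by norm_num) h1

lemma loglog_fibre_finite (k : ℕ) : (loglog ⁻¹' {k}).Finite :=
  (Set.finite_Iio (2 ^ 2 ^ (k + 1))).subset (fun _ ha => lt_of_loglog_eq ha)

lemma card_fibre_ge (k : ℕ) (hk : 3 ≤ k) :
    (k + 1) * 2 ^ (k + 1) ≤ (loglog_fibre_finite k).toFinset.card := by
  have h1 : Finset.Ico (2 ^ 2 ^ k) (2 ^ 2 ^ (k + 1)) ⊆ (loglog_fibre_finite k).toFinset := by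
    intro a ha
    rw [Set.Finite.mem_toFinset]
    rw [Finset.mem_Ico] at ha
    exact loglog_eq_of ha.1 ha.2
  have h2 := Finset.card_le_card h1
  rw [Nat.card_Ico] at h2
  refine le_trans ?_ h2
  have h3 : ∀ k, 3 ≤ k → 2 * k + 1 ≤ 2 ^ k := by
    intro k hk
    induction k, hk using Nat.le_induction with
    | base => norm_num
    | succ k hk ih => rw [pow_succ]; omega
  have h4 : k + 1 ≤ 2 ^ k := Nat.lt_two_pow_self
  have h5 : (k + 1) * 2 ^ (k + 1) ≤ 2 ^ (2 * k + 1) := by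
    calc (k + 1) * 2 ^ (k + 1) ≤ 2 ^ k * 2 ^ (k + 1) := Nat.mul_le_mul_right _ h4
      _ = 2 ^ (2 * k + 1) := by rw [← pow_add]; congr 1; ring
  have h6 : 2 ^ (2 * k + 1) ≤ 2 ^ 2 ^ k := Nat.pow_le_pow_right (by norm_num) (h3 k hk)
  have h7 : 2 ^ 2 ^ (k + 1) = 2 ^ 2 ^ k * 2 ^ 2 ^ k := by
    rw [← pow_add]; congr 1; rw [pow_succ]; ring
  have h8 : 2 ≤ 2 ^ 2 ^ k := by
    calc 2 = 2 ^ 1 := rfl
      _ ≤ 2 ^ 2 ^ k := Nat.pow_le_pow_right (by norm_num) (Nat.one_le_two_pow)
  have h9 : 2 ^ 2 ^ k ≤ 2 ^ 2 ^ (k + 1) - 2 ^ 2 ^ k := by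
    rw [h7]
    have : 2 * 2 ^ 2 ^ k ≤ 2 ^ 2 ^ k * 2 ^ 2 ^ k := Nat.mul_le_mul_right _ h8
    omega
  omega

lemma imIdeal_loglog_ne (f : ℕ → ℝ) (hf : IsEUWeight f) (σ : Equiv.Perm ℕ) :
    imIdeal loglog ≠ {A | σ '' A ∈ EU f} := by
  classical
  intro heq
  let X : ℕ → Finset ℕ := fun k => (loglog_fibre_finite k).toFinset.image σ
  have hX : Pairwise (fun j k => Disjoint (X j) (X k)) := by
    intro j k hjk
    rw [Finset.disjoint_left]
    intro a ha hb
    simp only [X, Finset.mem_image, Set.Finite.mem_toFinset] at ha hb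
    obtain ⟨x, hx, rfl⟩ := ha
    obtain ⟨y, hy, hxy⟩ := hb
    have : y = x := σ.injective hxy
    subst this
    have h1 : loglog y = j := hx
    have h2 : loglog y = k := hy
    exact hjk (h1.symm.trans h2)
  have hc : ∀ k, 3 ≤ k → (k + 1) * 2 ^ (k + 1) ≤ (X k).card := by
    intro k hk
    simp only [X]
    rw [Finset.card_image_of_injective _ σ.injective]
    exact card_fibre_ge k hk
  obtain ⟨k1, s, hs1, hs2⟩ := exists_selector hf X hX 3 hc
  set A : Set ℕ := σ ⁻¹' (s '' Set.Ici k1) with hA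
  have h1 : A ∈ {A : Set ℕ | σ '' A ∈ EU f} := by
    show σ '' A ∈ EU f
    rw [hA, Set.image_preimage_eq _ σ.surjective]
    exact hs2
  rw [← heq] at h1
  have h2 : loglog '' A ∈ densityZero := h1
  refine univ_not_densityZero_of_cofinite k1 (fun k hk => ?_) h2
  have h3 := hs1 k hk
  simp only [X, Finset.mem_image, Set.Finite.mem_toFinset] at h3
  obtain ⟨x, hx, hxs⟩ := h3
  refine ⟨x, ?_, hx⟩
  show σ x ∈ s '' Set.Ici k1
  rw [hxs]
  exact ⟨k, hk, rfl⟩

/-- There is an ideal on the natural numbers which is Rudin-Blass equivalent (hence Katetov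
equivalent) to the density zero ideal but which is not an Erdos-Ulam ideal, and is not even
isomorphic to one. The ideal consists of all `A` such that the set of rounded down values
`log₂ (log₂ a)`, `a ∈ A`, has density zero. -/
theorem main : ∃ I : Set (Set ℕ),
    (∀ A : Set ℕ, A ∈ I ↔ (fun a => Nat.log 2 (Nat.log 2 a)) '' A ∈ densityZero) ∧
    IsIdeal I ∧ (RBle I densityZero ∧ RBle densityZero I) ∧
    (Kle I densityZero ∧ Kle densityZero I) ∧
    (∀ f : ℕ → ℝ, IsEUWeight f → I ≠ EU f) ∧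
    ∀ f : ℕ → ℝ, IsEUWeight f → ∀ σ : Equiv.Perm ℕ, I ≠ {A | σ '' A ∈ EU f} := by
  have h1 := RBle_imIdeal_densityZero loglog loglog_surjective loglog_fibre_finite
  have h2 := RBle_densityZero_imIdeal loglog loglog_surjective loglog_fibre_finite
  refine ⟨imIdeal loglog, fun A => Iff.rfl, isIdeal_imIdeal _ loglog_surjective, ⟨h1, h2⟩,
    ⟨?_, ?_⟩, ?_, imIdeal_loglog_ne⟩
  · obtain ⟨φ, _, hφ⟩ := h1
    exact ⟨φ, fun A hA => (hφ A).mp hA⟩
  · obtain ⟨φ, _, hφ⟩ := h2
    exact ⟨φ, fun A hA => (hφ A).mp hA⟩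
  · intro f hf heq
    apply imIdeal_loglog_ne f hf (Equiv.refl ℕ)
    rw [heq]
    ext A
    show A ∈ EU f ↔ (Equiv.refl ℕ) '' A ∈ EU f
    simp

end Pool.Agent.Helper73.EUIdeal
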